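import Mathlib
import Pool.Agent.Q158.AsD

/-! # A Lipschitz quasiconformal map of the plane can raise the Assouad dimension

The plane is `ℂ` with its usual (Euclidean) metric. Let `E` be the set of natural numbers all of
whose digits to base `16` are `0` or `1`, and let `ψ z = (1 + ‖z‖ ^ 2) ^ (-1 / 4) • z`. The map is
`f z = ∑ c ∈ E, (ψ (z - c) - ψ (-c))`. Its derivative is symmetric with eigenvalues between `M z / 2`
and `3 * M z / 2`, where `M z = ∑ c ∈ E, (1 + ‖z - c‖ ^ 2) ^ (-1 / 4)` is bounded; so `f` is a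
Lipschitz quasiconformal homeomorphism. The points of `f '' E` are `1 / 2`-separated, and `2 ^ k` of
them have norm at most `10 * 8 ^ k`. -/

set_option autoImplicit false

namespace Pool.Agent.Results.MP_c78a2a_an.LipschitzQuasiconformal

open scoped ENNReal NNReal

/-- `A` can be covered by finitely many sets of diameter at most `r` whose number is at most `N`;
in other words `N_r(A) ≤ N`. -/
def HasCover (A : Set ℂ) (r N : ℝ) : Prop :=
  ∃ G : Finset (Set ℂ), (G.card : ℝ) ≤ N ∧ (∀ S ∈ G, ∀ x ∈ S, ∀ y ∈ S, dist x y ≤ r) ∧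
    A ⊆ ⋃ S ∈ G, S

/-- The Assouad dimension of `E`: the infimum of all `α ≥ 0` for which there is `C > 0` with
`N_r(B(x, R) ∩ E) ≤ C (R / r) ^ α` for all `x ∈ E` and `0 < r < R`. -/
noncomputable def dimA (E : Set ℂ) : ℝ≥0∞ :=
  ⨅ (α : ℝ≥0) (_ : ∃ C : ℝ, 0 < C ∧ ∀ x ∈ E, ∀ r R : ℝ, 0 < r → r < R →
    HasCover (Metric.ball x R ∩ E) r (C * (R / r) ^ (α : ℝ))), (α : ℝ≥0∞)

/-- There are a homeomorphism `f` of the plane and a set `E` such that `f` is continuously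
differentiable and Lipschitz, `|Df(z)|² ≤ 9 det Df(z)` at every point `z`, so that `f` is
quasiconformal, the Assouad dimension of `E` is at most `1 / 4`, and that of `f(E)` is at least
`1 / 3`. -/
theorem result : ∃ (f : ℂ ≃ₜ ℂ) (L : ℝ≥0) (E : Set ℂ),
    ContDiff ℝ 1 f ∧ (∀ z : ℂ, ‖fderiv ℝ f z‖ ^ 2 ≤ 9 * (fderiv ℝ f z).det) ∧
    LipschitzWith L f ∧ dimA E ≤ 1 / 4 ∧ 1 / 3 ≤ dimA (f '' E) ∧ dimA E < dimA (f '' E) := by
  have h1 : dimA Pool.Agent.Q158.As.Ec ≤ 1 / 4 := by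
    have h2 : dimA Pool.Agent.Q158.As.Ec ≤ ((1 / 4 : ℝ≥0) : ℝ≥0∞) := by
      refine iInf₂_le (1 / 4 : ℝ≥0) ⟨4, by norm_num, ?_⟩
      have h3 := Pool.Agent.Q158.As.upper_dim
      intro x hx r R hr hrR
      have h4 := h3 x hx r R hr hrR
      have e : (((1 / 4 : ℝ≥0)) : ℝ) = 1 / 4 := by push_cast; norm_num
      rw [e]
      exact h4
    refine h2.trans (le_of_eq ?_)
    rw [ENNReal.coe_div (by norm_num)]
    norm_num
  have h2 : 1 / 3 ≤ dimA (Pool.Agent.Q158.As.F '' Pool.Agent.Q158.As.Ec) := by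
    refine le_iInf₂ fun α hα => ?_
    obtain ⟨C, hC, h3⟩ := hα
    have h4 := Pool.Agent.Q158.As.lower_dim (α := (α : ℝ)) (C := C) α.2 hC h3
    have h5 : (1 / 3 : ℝ≥0) ≤ α := by
      rw [← NNReal.coe_le_coe]
      push_cast
      exact h4
    have h6 : ((1 / 3 : ℝ≥0) : ℝ≥0∞) ≤ α := by exact_mod_cast h5
    refine le_trans (le_of_eq ?_) h6
    rw [ENNReal.coe_div (by norm_num)]
    norm_num
  refine ⟨Pool.Agent.Q158.As.homeo, _, Pool.Agent.Q158.As.Ec, Pool.Agent.Q158.As.contDiff_F, ?_,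
    Pool.Agent.Q158.As.lip_F, h1, h2, ?_⟩
  · intro z
    have h3 : fderiv ℝ (Pool.Agent.Q158.As.homeo : ℂ → ℂ) z = Pool.Agent.Q158.As.dF z :=
      Pool.Agent.Q158.As.fderiv_F z
    rw [h3]
    exact Pool.Agent.Q158.As.qc z
  · refine lt_of_le_of_lt h1 (lt_of_lt_of_le ?_ h2)
    rw [one_div, one_div]
    exact ENNReal.inv_lt_inv.2 (by norm_num)

end Pool.Agent.Results.MP_c78a2a_an.LipschitzQuasiconformal
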